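import Pool.Agent.H53.Q1.J21.NoCut
import Pool.Agent.H42.Q1.TipS

set_option autoImplicit false
open Finset Filter Topology

/-! # M7, J21: facts on the admissible states

`StF` : the labels at the barrier in the states which stay away from the barrier. -/

namespace Pool.Agent.H53.Q1

open Pool.Agent.H75.Perc Pool.Agent.H75.TwoArm Pool.Agent.H75.Four Pool.Agent.H69.Q1
open Pool.Agent.H99.NC Pool.Agent.H28.Q1
open Pool.Agent.Q1.M3 hiding denv_ext fat_sub_cfat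
open Pool.Agent.H81.Q1 (pt Approx IsJordanDomain IsArcs)
open Pool.Agent.H82.Q1.M7
open Pool.Agent.H21.Q1 (InvL kp perp_star)

section

variable {D : Set ℂ} {a b : ℂ} {A₁ A₂ : Set ℂ} {A : Approx D a b A₁ A₂} {r0 : ℝ}

/-- Facts on a state of the chain which is not finished. -/
structure StF (B : Base A r0) (k0 n j : ℕ) (ω : Finset (ℤ × ℤ)) : Prop where
  /-- the state is not finished -/
  nfin : ¬ B.Fin n (B.X k0 n j ω)
  inv : Inv (B.X k0 n j ω)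
  invL : InvL (B.X k0 n j ω)
  beta : (B.X k0 n j ω).β = (X0 A n).β
  betN : vx (B.X k0 n j ω).β ∈ B.N n
  alphaN : vx (B.X k0 n j ω).α ∉ B.N n
  E0 : (B.X k0 n j ω).E ⊆ (X0 A n).E
  W0 : (X0 A n).W ⊆ (B.X k0 n j ω).W
  /-- free labels at the barrier stay free -/
  EN : ∀ e ∈ (X0 A n).E, e ∈ star (B.N n) → e ∈ (B.X k0 n j ω).E
  /-- no new wired labels at the barrier -/
  WN : ∀ e ∈ (B.X k0 n j ω).W, e ∈ star (B.N n) → e ∈ (X0 A n).W
  kpe : kp (B.X k0 n j ω) (B.N n) = kap (B.N n) ∩ ((X0 A n).E ∪ (X0 A n).W)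
  /-- the barrier is connected -/
  conn : ∀ u ∈ B.N n, ∀ v ∈ B.N n, Co (kp (B.X k0 n j ω) (B.N n)) u v
  oddE : ∀ e ∈ (B.X k0 n j ω).E, (e.1 + e.2) % 2 = 1

/-- The free labels of the initial environment are odd. -/
lemma odd_X0 {n : ℕ} : ∀ e ∈ (X0 A n).E, (e.1 + e.2) % 2 = 1 := by
  intro e he
  exact Pool.Agent.H28.Q1.odd_toDEnv (A.X n) e he

variable (B : Base A r0) {k0 n : ℕ} {ω : Finset (ℤ × ℤ)}

/-- **Facts on a state which is not finished.** -/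
theorem stF_of (hω : ω ⊆ (X0 A n).E) {j : ℕ} (h : ¬ B.Fin n (B.X k0 n j ω))
    (hβ : vx (X0 A n).β ∈ B.N n)
    (hconn : ∀ u ∈ B.N n, ∀ v ∈ B.N n, Co (kap (B.N n) ∩ ((X0 A n).E ∪ (X0 A n).W)) u v) :
    StF B k0 n j ω := by
  have hE : (B.X k0 n j ω).E = (X0 A n).E \ Rules.metE (X0 A n) ω (B.T k0 n j ω) :=
    Rules.st_E _ hω j
  have hW : (B.X k0 n j ω).W = (X0 A n).W ∪ (ω ∩ Rules.metE (X0 A n) ω (B.T k0 n j ω)) :=
    Rules.st_W _ hω j
  have hmet : ∀ e ∈ star (B.N n), e ∉ Rules.metE (X0 A n) ω (B.T k0 n j ω) := by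
    intro e he h1
    obtain ⟨-, u, hu, h2⟩ := Rules.mem_metE.1 h1
    exact chain_N B hω j h u hu (by rw [h2]; exact he)
  have hEN : ∀ e ∈ (X0 A n).E, e ∈ star (B.N n) → e ∈ (B.X k0 n j ω).E := fun e he hs => by
    rw [hE, Finset.mem_sdiff]; exact ⟨he, hmet e hs⟩
  have hWN : ∀ e ∈ (B.X k0 n j ω).W, e ∈ star (B.N n) → e ∈ (X0 A n).W := fun e he hs => by
    rw [hW, mem_union] at he
    rcases he with he | he
    · exact he
    · exact absurd (mem_inter.1 he).2 (hmet e hs)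
  have hE0 : (B.X k0 n j ω).E ⊆ (X0 A n).E := by rw [hE]; exact sdiff_subset
  have hW0 : (X0 A n).W ⊆ (B.X k0 n j ω).W := by rw [hW]; exact subset_union_left
  have hkp : kp (B.X k0 n j ω) (B.N n) = kap (B.N n) ∩ ((X0 A n).E ∪ (X0 A n).W) := by
    unfold kp
    ext e
    rw [mem_inter, mem_inter, mem_union, mem_union]
    constructor
    · rintro ⟨h1, h2 | h2⟩
      · exact ⟨h1, Or.inl (hE0 h2)⟩
      · exact ⟨h1, Or.inr (hWN e h2 (mem_filter.1 h1).1)⟩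
    · rintro ⟨h1, h2 | h2⟩
      · exact ⟨h1, Or.inl (hEN e h2 (mem_filter.1 h1).1)⟩
      · exact ⟨h1, Or.inr (hW0 h2)⟩
  refine ⟨h, Pool.Agent.H42.Q1.inv_X B j ω, Pool.Agent.H42.Q1.invL_X B j ω, B.X_beta j,
    by rw [B.X_beta]; exact hβ, ?_, hE0, hW0, hEN, hWN, hkp, ?_, fun e he => odd_X0 e (hE0 he)⟩
  · intro h1
    exact h (star1_sub_star h1 (lab_star1 _))
  · rw [hkp]; exact hconn

/-- **Facts on the states which stay away from the barrier.** -/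
theorem stF_far (hDb : Bornology.IsBounded D) (haD : a ∉ D) (hbD : b ∉ D) (k0 : ℕ) {ρ : ℝ}
    (hρ : 0 < ρ) : ∀ᶠ n in atTop, ∀ ω, ω ⊆ (X0 A n).E → ∀ j, FarS B n ρ k0 j ω →
      StF B k0 n j ω := by
  filter_upwards [B.conn, Pool.Agent.H5.M7.reg_ev (B := B) hDb haD hbD hρ k0,
    Pool.Agent.H5.M7.nfin (B := B) hbD hρ] with n h4 h5 h6 ω hω j hF
  exact stF_of B hω (h6 k0 j ω hω hF) (h5 j ω hω hF).beta h4

variable {B}

/-- **Facts on the admissible states.** -/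
theorem stF_adm (hJ : IsJordanDomain D) (hA : IsArcs D a b A₁ A₂) (w : Win B) (k0 : ℕ) (ρ : ℝ) :
    ∀ᶠ n in atTop, ∀ ω, ω ⊆ (X0 A n).E → ∀ j, Adm w n ρ k0 j ω →
      StF B k0 n j ω ∧ FreshS B n w.l (B.X k0 n j ω) ∧ w.Tw n ⊆ (B.X k0 n j ω).E ∧
      B.Reg k0 k0 n := by
  obtain ⟨haD, hbD⟩ := Pool.Agent.H14.NB.not_mem_of_arcs hJ.1 hA
  have hl := w.l0
  have hρ : 0 < 2 * w.l := by linarith
  filter_upwards [stF_far B hJ.2.2.1 haD hbD k0 hρ, far_fresh B (show w.l < 2 * w.l by linarith),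
    Pool.Agent.H5.M7.reg_ev (B := B) hJ.2.2.1 haD hbD hρ k0] with n h1 h2 h3 ω hω j hadm
  have h4 := h1 ω hω j hadm.far
  refine ⟨h4, h2 k0 j ω hω hadm.far, fun e he => ?_, h3 j ω hω hadm.far⟩
  unfold Win.Tw at he
  obtain ⟨h5, h6⟩ := mem_inter.1 (mem_inter.1 he).2
  exact h4.EN e h6 (perp_star h5)

end

end Pool.Agent.H53.Q1
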