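import Pool.Agent.H76.M7.Cut
import Pool.Agent.H42.Q1.OneB
import Pool.Agent.H5.M7.StateA
import Pool.Agent.H53.Q1.J20.Free

set_option autoImplicit false
open Finset Filter Topology

/-! # M7, J21: no small crosscuts in the admissible states

`nocut_win` : the boxes away from the tip and the barrier satisfy `NoCutC`. -/

namespace Pool.Agent.H53.Q1

open Pool.Agent.H75.Perc Pool.Agent.H75.TwoArm Pool.Agent.H75.Four Pool.Agent.H69.Q1
open Pool.Agent.H99.NC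
open Pool.Agent.Q1.M3
open Pool.Agent.H81.Q1 (pt Approx IsJordanDomain IsArcs)
open Pool.Agent.H82.Q1.M7
open Pool.Agent.H77.Q1 (Far lbf)
open Pool.Agent.H76.M7 (NoCutC)
open Pool.Agent.H42.Q1 (RB)

section

variable {D : Set ℂ} {a b : ℂ} {A₁ A₂ : Set ℂ} {A : Approx D a b A₁ A₂} {r0 : ℝ}

/-- The two forms of the property agree. -/
lemma noCut_iff {X : DEnv} {p q r s : ℤ} :
    Pool.Agent.H76.M7.NoCut X p q r s ↔ Pool.Agent.H21.Q1.NoCut X p q r s := by
  constructor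
  · intro h T hT hTI hTv z z' f hz hzT hNz hp hf
    exact h T hT hTI hTv z z' f hz hzT hNz hp hf
  · intro h T hT hTI hTv z z' f hz hzT hNz hp hf
    exact h T hT hTI hTv z z' f hz hzT hNz hp hf

/-- **No small crosscuts in the states which stay away from the barrier.** -/
theorem nocut_far (hJ : IsJordanDomain D) (hA : IsArcs D a b A₁ A₂) (B : Base A r0) (k0 : ℕ)
    {ρ : ℝ} (hρ : 0 < ρ) : ∃ e1 > 0, ∀ᶠ n in atTop, ∀ ω, ω ⊆ (X0 A n).E → ∀ j,
      FarS B n ρ k0 (j + 1) ω → ∀ (c : ℤ × ℤ) (R : ℤ), (2 * (R : ℝ) + 4) * A.δ n < e1 →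
      (∀ v ∈ B.N n, Far (R + 2) c v) →
      Far (R + 1) c (eu (lab (B.X k0 n (j + 1) ω).α)) →
      Far (R + 1) c (ev (lab (B.X k0 n (j + 1) ω).α)) →
      NoCutC (B.X k0 n (j + 1) ω) c R := by
  classical
  have hDo : IsOpen D := hJ.1
  have hDb : Bornology.IsBounded D := hJ.2.2.1
  obtain ⟨haD, hbD⟩ := Pool.Agent.H14.NB.not_mem_of_arcs hDo hA
  set k := max k0 ((B.Q 0).sup (fun q => q.1)) with hk
  have hQk : ∀ q ∈ B.Q 0, q.1 ≤ k := fun q hq =>
    (Finset.le_sup (f := fun q : Cell => q.1) hq).trans (le_max_right _ _)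
  have hm := mesh_pos (k + 1)
  have hQD : ∀ q ∈ B.Q 0, cfat B.o q ⊆ D := fun q hq =>
    (B.subQ 0 q hq).trans Set.inter_subset_left
  have hqb : B.qb ∈ B.Q 0 := B.qb_mem
  refine ⟨mesh (k + 1), hm, ?_⟩
  filter_upwards [A.lim.eventually_lt_const hm, B.hN 0, B.conn,
    Pool.Agent.H5.M7.reg_ev (B := B) hDb haD hbD hρ k0,
    Pool.Agent.H5.M7.nfin (B := B) hbD hρ,
    Pool.Agent.H28.Q1.star_free hDo hDb hA A B.o hQD] with n h1 h3 h4 h5 h6 h7 ω hω j hF c R hR hN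
      ht1 ht2
  have hReg := h5 (j + 1) ω hω hF
  have hfin := h6 k0 (j + 1) ω hω hF
  obtain ⟨N', hN', -⟩ := h3
  have hN2 : B.N n = Vn (A.δ n) B.o (B.Q 0) ∪ B.N n := by
    rw [hN', ← union_assoc, union_self]
  have hs : ∀ x y : ℤ, y - x = 2 * R → ((y - x : ℤ) : ℝ) + 2 < mesh (k + 1) / A.δ n := by
    intro x y hxy
    rw [lt_div_iff₀ (A.pos n), hxy]
    push_cast
    have := A.pos n
    nlinarith
  refine noCut_iff.2 (Pool.Agent.H42.Q1.cut_state B hDb hω hfin hReg (le_max_left _ _) h1 hQk hN2 hqb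
    hReg.beta h7 h4 (hs _ _ (by ring)) (hs _ _ (by ring)) ?_ ⟨?_, ?_⟩)
  · intro v hv h8
    have h9 := hN v hv
    unfold Far at h9
    unfold RB at h8
    rw [le_abs, le_abs] at h9
    omega
  · intro h8
    unfold Far at ht1
    unfold RB at h8
    rw [le_abs, le_abs] at ht1
    omega
  · intro h8
    unfold Far at ht2
    unfold RB at h8
    rw [le_abs, le_abs] at ht2
    omega

/-- **No small crosscuts in the admissible states.** -/
theorem nocut_win (hJ : IsJordanDomain D) (hA : IsArcs D a b A₁ A₂) {B : Base A r0} (w : Win B)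
    (k0 : ℕ) (ρ : ℝ) : ∃ e1 > 0, ∀ᶠ n in atTop, ∀ ω, ω ⊆ (X0 A n).E → ∀ j,
      Adm w n ρ k0 (j + 1) ω → ∀ (c : ℤ × ℤ) (R : ℤ), (2 * (R : ℝ) + 4) * A.δ n < e1 →
      (∀ v ∈ B.N n, Far (R + 2) c v) →
      Far (R + 1) c (eu (lab (B.X k0 n (j + 1) ω).α)) →
      Far (R + 1) c (ev (lab (B.X k0 n (j + 1) ω).α)) →
      NoCutC (B.X k0 n (j + 1) ω) c R := by
  obtain ⟨e1, he1, h⟩ := nocut_far hJ hA B k0 (show 0 < 2 * w.l by have := w.l0; linarith)
  refine ⟨e1, he1, ?_⟩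
  filter_upwards [h] with n hn ω hω j hadm
  exact hn ω hω j hadm.far

end

end Pool.Agent.H53.Q1
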